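import Pool.Agent.H5.BHG.Stmts

/-!
Row PSO: the algorithm runs in polynomial time.
-/

set_option autoImplicit false

namespace Pool.BHG

open Filter TMLib Pool.PG Pool.DPG

lemma pso_def (g : Game) : msk g.length (fun _ => true) =
    (List.range g.length).map fun _ => true := rfl

lemma pso_msk : PTime (fun g : Game => msk g.length fun _ => true) := by
  simp only [pso_def]
  exact PTime.map (l := fun g : Game => List.range g.length) (g := fun _ _ => true)
    (PTime.range (PTime.length PTime.id)) (PTime.const true)

lemma pso_lvs (hPLG : PLGStmt) (hPON : PONStmt) (hPCT : PCTStmt) :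
    ∀ s : ℕ, PTime (fun p : Game × List Bool => lvs s p.1 p.2) := by
  intro s
  induction s with
  | zero => exact hPON
  | succ s ih => exact hPLG one c0 (lvs s) hPON hPCT.1 ih

theorem pso_thm (hPLG : PLGStmt) (hPON : PONStmt) (hPCT : PCTStmt) : PSOStmt := by
  intro t
  have h1 : PTime (fun p : Game × List Bool => lvs t p.1 p.2) := pso_lvs hPLG hPON hPCT t
  have h2 : PTime (fun p : Game × List Bool => lvg (lvs t) (ct t) (lvs t) p.1 p.2) :=
    hPLG (lvs t) (ct t) (lvs t) h1 (hPCT.2 t) h1
  have h3 : PTime (fun g : Game =>
      lvg (lvs t) (ct t) (lvs t) g (msk g.length fun _ => true)) :=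
    PTime.comp (g := fun p : Game × List Bool => lvg (lvs t) (ct t) (lvs t) p.1 p.2)
      (f := fun g : Game => (g, msk g.length fun _ => true)) h2
      (PTime.pair (f := fun g : Game => g) (g := fun g : Game => msk g.length fun _ => true)
        PTime.id pso_msk)
  have e : sol t = fun g : Game =>
      lvg (lvs t) (ct t) (lvs t) g (msk g.length fun _ => true) := by
    funext g
    unfold sol
    rfl
  rw [e]
  exact h3

end Pool.BHG
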